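import Pool.Agent.Lib.ZFModel.DefsZFC
import Mathlib.SetTheory.ZFC.Ordinal
import Mathlib.SetTheory.ZFC.Rank
import Mathlib.Data.Set.Countable

/-! Class forcing over a countable transitive model of ZFC.  Sets are Mathlib's `ZFSet`. -/

namespace Pool.Agent.Work.MP_cbd9ca_lc
open Pool.Agent.Lib.ZFModel

/-- The membership relation restricted to a class `C` of sets. -/
def Mem (C : Set ZFSet.{0}) : C → C → Prop := fun a b => a.1 ∈ b.1

/-- All free variables of the formula are among `v₀, …, vₙ₋₁`. -/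
def FreeBelow : ℕ → Fml → Prop
  | n, .mem i j => i < n ∧ j < n
  | n, .eq i j => i < n ∧ j < n
  | _, .fal => True
  | n, .imp φ ψ => FreeBelow n φ ∧ FreeBelow n ψ
  | n, .all φ => FreeBelow (n + 1) φ

/-- `M` is a countable transitive model of ZFC. -/
def IsCTM (M : ZFSet.{0}) : Prop :=
  M.IsTransitive ∧ (M : Set ZFSet).Countable ∧ IsZFC (Mem (M : Set ZFSet))

/-- `D` is a subset of `M` definable over `(M, ∈)` with parameters. -/
def Definable₁ (M : ZFSet.{0}) (D : Set ZFSet.{0}) : Prop :=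
  ∃ (φ : Fml) (v : ℕ → (M : Set ZFSet)),
    ∀ x, x ∈ D ↔ ∃ hx : x ∈ M, Sat (Mem M) φ (cons ⟨x, hx⟩ v)

/-- `R` is a binary relation on `M` definable over `(M, ∈)` with parameters. -/
def Definable₂ (M : ZFSet.{0}) (R : ZFSet.{0} → ZFSet.{0} → Prop) : Prop :=
  ∃ (φ : Fml) (v : ℕ → (M : Set ZFSet)),
    ∀ x y, R x y ↔ ∃ (hx : x ∈ M) (hy : y ∈ M), Sat (Mem M) φ (cons ⟨x, hx⟩ (cons ⟨y, hy⟩ v))

/-- A notion of class forcing for `M`: a partially ordered class whose domain and order are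
definable over `(M, ∈)`. -/
structure ClassForcing (M : ZFSet.{0}) where
  P : Set ZFSet.{0}
  le : ZFSet.{0} → ZFSet.{0} → Prop
  definable_P : Definable₁ M P
  definable_le : Definable₂ M le
  mem_of_le : ∀ p q, le p q → p ∈ P ∧ q ∈ P
  refl : ∀ p ∈ P, le p p
  trans : ∀ p q r, le p q → le q r → le p r
  antisymm : ∀ p q, le p q → le q p → p = q

/-- `σ` is a `P`-name: all its elements are pairs `⟨τ, p⟩` with `τ` a `P`-name and `p ∈ P`. -/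
inductive IsName (P : Set ZFSet.{0}) : ZFSet.{0} → Prop
  | mk (σ : ZFSet.{0}) : (∀ z ∈ σ, ∃ τ p, z = ZFSet.pair τ p ∧ p ∈ P) →
      (∀ τ p, ZFSet.pair τ p ∈ σ → IsName P τ) → IsName P σ

instance small_children (G : Set ZFSet.{0}) (σ : ZFSet.{0}) :
    Small.{0} {τ : ZFSet.{0} // ∃ p ∈ G, ZFSet.pair τ p ∈ σ} :=
  small_of_injective_of_exists (fun a : ZFSet.sUnion (ZFSet.sUnion σ) => a.1) Subtype.val_injective
    fun ⟨τ, p, _, h⟩ => ⟨⟨τ, ZFSet.mem_sUnion.2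
      ⟨{τ}, ZFSet.mem_sUnion.2 ⟨_, h, by simp [ZFSet.pair]⟩, by simp⟩⟩, rfl⟩

theorem rank_lt_of_pair_mem {τ p σ : ZFSet.{0}} (h : ZFSet.pair τ p ∈ σ) : τ.rank < σ.rank :=
  ((ZFSet.rank_lt_of_mem (show τ ∈ ({τ} : ZFSet) by simp)).trans
    (ZFSet.rank_lt_of_mem (by simp [ZFSet.pair]))).trans (ZFSet.rank_lt_of_mem h)

/-- The evaluation `σ ^ G = {τ ^ G : ⟨τ, p⟩ ∈ σ for some p ∈ G}`. -/
noncomputable def val (G : Set ZFSet.{0}) (σ : ZFSet.{0}) : ZFSet.{0} :=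
  ZFSet.range fun τ : {τ : ZFSet.{0} // ∃ p ∈ G, ZFSet.pair τ p ∈ σ} => val G τ.1
termination_by σ.rank
decreasing_by exact rank_lt_of_pair_mem τ.2.choose_spec.2

/-- The code of a finite sequence by iterated ordered pairs. -/
def tup : List ZFSet.{0} → ZFSet.{0}
  | [] => ∅
  | a :: l => ZFSet.pair a (tup l)

variable {M : ZFSet.{0}} (Q : ClassForcing M)

/-- `G` is a filter on `Q` meeting every dense subset of `Q` definable over `M`. -/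
def IsGeneric (G : Set ZFSet.{0}) : Prop :=
  G ⊆ Q.P ∧ (∀ p q, p ∈ G → Q.le p q → q ∈ G) ∧
  (∀ p ∈ G, ∀ q ∈ G, ∃ r ∈ G, Q.le r p ∧ Q.le r q) ∧
  ∀ D, Definable₁ M D → D ⊆ Q.P → (∀ p ∈ Q.P, ∃ q ∈ D, Q.le q p) → ∃ p ∈ G, p ∈ D

/-- The generic extension `M[G]`. -/
def Extension (G : Set ZFSet.{0}) : Set ZFSet.{0} :=
  {x | ∃ σ ∈ M, IsName Q.P σ ∧ x = val G σ}

/-- `p ⊩ φ(σ₀, …, σₙ₋₁)`: the formula holds in `M[G]` at `σ₀ ^ G, …, σₙ₋₁ ^ G` for every generic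
`G` containing `p`. -/
def Forces (φ : Fml) (p : ZFSet.{0}) (σ : List ZFSet.{0}) : Prop :=
  ∀ G, IsGeneric Q G → p ∈ G → ∀ v : ℕ → Extension Q G,
    (∀ (i : ℕ) (h : i < σ.length), (v i).1 = val G σ[i]) → Sat (Mem (Extension Q G)) φ v

/-- The forcing relation `R_φ` of `φ(v₀, …, vₙ₋₁)`, as a class of codes `⟨p, σ⟩`. -/
def forcingRel (φ : Fml) (n : ℕ) : Set ZFSet.{0} :=
  {z | ∃ p σ, z = ZFSet.pair p (tup σ) ∧ p ∈ Q.P ∧ σ.length = n ∧
    (∀ τ ∈ σ, τ ∈ M ∧ IsName Q.P τ) ∧ Forces Q φ p σ}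

/-- The forcing relation of `Q` is `M`-amenable: `R_φ ∩ x ∈ M` for all `φ` and all `x ∈ M`. -/
def Amenable : Prop :=
  ∀ (φ : Fml) (n : ℕ), FreeBelow n φ → ∀ x ∈ M, ∃ y ∈ M, ∀ z, z ∈ y ↔ z ∈ x ∧ z ∈ forcingRel Q φ n

end Pool.Agent.Work.MP_cbd9ca_lc
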