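import Pool.Agent.Lib.ZFModel.Generic
import Mathlib.SetTheory.Ordinal.Family

/-! The closed game in which one player builds a generic filter together with a Hintikka set for
the generic extension. -/

namespace Pool.Agent.Work.MP_cbd9ca_lc
open Pool.Agent.Lib.ZFModel

universe u v

section abstract
variable {X Y : Type u} (R : X → Y → X → Prop)

/-- Winning positions of the closed player. -/
def Win (s : X) : Prop := ∃ S : X → Prop, S s ∧ ∀ t, S t → ∀ m, ∃ r, R t m r ∧ S r

theorem Win.step {s : X} (h : Win R s) (m : Y) : ∃ r, R s m r ∧ Win R r := by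
  obtain ⟨S, h1, h2⟩ := h
  obtain ⟨r, h3, h4⟩ := h2 s h1 m
  exact ⟨r, h3, S, h4, h2⟩

inductive Lose : Ordinal.{u} → X → Prop
  | mk (a : Ordinal.{u}) (s : X) (m : Y) (b : X → Ordinal.{u}) : (∀ r, R s m r → b r < a) →
      (∀ r, R s m r → Lose (b r) r) → Lose a s

theorem exists_lose {s : X} (h : ¬ Win R s) : ∃ a, Lose R a s := by
  classical
  by_contra hs
  refine h ⟨fun t => ¬ ∃ a, Lose R a t, hs, fun t ht m => ?_⟩
  by_contra hc
  have h1 : ∀ r, ∃ a, R t m r → Lose R a r := by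
    intro r
    by_cases hr : R t m r
    · obtain ⟨a, ha⟩ : ∃ a, Lose R a r := by_contra fun h => hc ⟨r, hr, h⟩
      exact ⟨a, fun _ => ha⟩
    · exact ⟨0, fun h => absurd h hr⟩
  choose b hb using h1
  exact ht ⟨⨆ r, (b r + 1), .mk _ t m b
    (fun r _ => (lt_add_one _).trans_le (Ordinal.le_iSup (fun r => b r + 1) r)) hb⟩

theorem exists_strategy [Nonempty Y] : ∃ (mv : X → Y) (rk : X → Ordinal.{u}),
    ∀ s, ¬ Win R s → ∀ r, R s (mv s) r → ¬ Win R r ∧ rk r < rk s := by
  classical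
  have hl : ∀ a s, Lose R a s → ¬ Win R s := by
    intro a s h
    induction h with
    | mk a s m b _ _ ih =>
      intro hw
      obtain ⟨r, h1, h2⟩ := hw.step R m
      exact ih r h1 h2
  let rk : X → Ordinal.{u} := fun s => sInf {a | Lose R a s}
  have h1 : ∀ s, ∃ m, ¬ Win R s → ∀ r, R s m r → ¬ Win R r ∧ rk r < rk s := by
    intro s
    by_cases hs : Win R s
    · exact ⟨Classical.arbitrary Y, fun h => absurd hs h⟩
    · have h2 : Lose R (rk s) s := csInf_mem (s := {a | Lose R a s}) (exists_lose R hs)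
      generalize ha : rk s = a at h2
      cases h2 with
      | mk _ _ m b h3 h4 =>
        exact ⟨m, fun _ r hr => ⟨hl _ _ (h4 r hr), (csInf_le' (s := {a | Lose R a r}) (h4 r hr)).trans_lt (h3 r hr)⟩⟩
  choose mv hmv using h1
  exact ⟨mv, rk, hmv⟩

end abstract

/-- Signed formulas with parameters. -/
abbrev St (A : Type u) := Bool × Fml × List A
/-- Positions (condition, witness, finite list of signed formulas); also used for moves. -/
abbrev Pos (A : Type u) := A × A × List (St A)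

def St.map {A : Type u} {B : Type v} (j : A → B) (s : St A) : St B := (s.1, s.2.1, s.2.2.map j)
def Pos.map {A : Type u} {B : Type v} (j : A → B) (s : Pos A) : Pos B :=
  (j s.1, j s.2.1, s.2.2.map (St.map j))
def Pos.elems {A : Type u} (s : Pos A) : List A := s.1 :: s.2.1 :: s.2.2.flatMap fun t => t.2.2

theorem exists_list_map {A : Type u} {B : Type v} (j : A → B) (l : List B)
    (h : ∀ b ∈ l, ∃ a, j a = b) : ∃ l' : List A, l'.map j = l := by
  induction l with
  | nil => exact ⟨[], rfl⟩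
  | cons b l ih =>
    obtain ⟨a, rfl⟩ := h b List.mem_cons_self
    obtain ⟨l', rfl⟩ := ih fun b hb => h b (List.mem_cons_of_mem _ hb)
    exact ⟨a :: l', rfl⟩

theorem Pos.exists_map {A : Type u} {B : Type v} (j : A → B) (s : Pos B)
    (h : ∀ b ∈ s.elems, ∃ a, j a = b) : ∃ s' : Pos A, s'.map j = s := by
  obtain ⟨p, w, T⟩ := s
  obtain ⟨p', rfl⟩ := h p (by simp [Pos.elems])
  obtain ⟨w', rfl⟩ := h w (by simp [Pos.elems])
  obtain ⟨T', rfl⟩ := exists_list_map (St.map j) T (by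
    rintro ⟨b, φ, l⟩ ht
    obtain ⟨l', rfl⟩ := exists_list_map j l fun a ha => h a (by
      simp only [Pos.elems, List.mem_cons, List.mem_flatMap]
      exact Or.inr (Or.inr ⟨_, ht, ha⟩))
    exact ⟨(b, φ, l'), rfl⟩)
  exact ⟨(p', w', T'), rfl⟩

theorem Pos.mem_elems_map {A : Type u} {B : Type v} (j : A → B) (s : Pos A) :
    ∀ b ∈ (s.map j).elems, ∃ a, j a = b := by
  intro b hb
  simp only [Pos.elems, Pos.map, St.map, List.mem_cons, List.mem_flatMap, List.mem_map] at hb
  rcases hb with rfl | rfl | ⟨_, ⟨t, _, rfl⟩, hb⟩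
  · exact ⟨_, rfl⟩
  · exact ⟨_, rfl⟩
  · obtain ⟨a, _, h⟩ := List.mem_map.1 hb
    exact ⟨a, h⟩

theorem envOf_map {A : Type u} {B : Type v} (j : A → B) (e : A) (l : List A) (i : ℕ) :
    envOf (j e) (l.map j) i = j (envOf e l i) := by
  induction l generalizing i with
  | nil => rfl
  | cons a l ih => cases i with
    | zero => rfl
    | succ i => exact ih i

theorem exists_envOf_eq {A : Type u} (e : A) (l : List A) : ∀ a ∈ l, ∃ i, envOf e l i = a := by
  induction l with
  | nil => simp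
  | cons b l ih =>
    intro a ha
    rcases List.mem_cons.1 ha with rfl | ha
    · exact ⟨0, rfl⟩
    · obtain ⟨i, hi⟩ := ih a ha
      exact ⟨i + 1, hi⟩

/-- The data on which the game is played. -/
structure GD (A : Type u) where
  e : A
  le : A → A → Prop
  Act : A → A → A → Prop
  Nm : A → Prop
  Dn : Fml → List A → A → Prop
  Dense : Fml → List A → Prop

variable {A : Type u} {B : Type u}

def Rule (g : GD A) (p a q w : A) (T : List (St A)) : St A → Prop
  | (true, .fal, _) => False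
  | (false, .fal, _) => True
  | (true, .imp φ ψ, l) => (false, φ, l) ∈ T ∨ (true, ψ, l) ∈ T
  | (false, .imp φ ψ, l) => (true, φ, l) ∈ T ∧ (false, ψ, l) ∈ T
  | (true, .all φ, l) => g.Nm a → (true, φ, a :: l) ∈ T
  | (false, .all φ, l) => g.Nm w ∧ (false, φ, w :: l) ∈ T
  | (true, .mem i k, l) => g.Act (envOf g.e l k) w q ∧ (true, .eq 0 1, [envOf g.e l i, w]) ∈ T
  | (false, .mem i k, l) => g.Act (envOf g.e l k) a p → (false, .eq 0 1, [envOf g.e l i, a]) ∈ T
  | (true, .eq i k, l) => (g.Act (envOf g.e l i) a p → (true, .mem 0 1, [a, envOf g.e l k]) ∈ T) ∧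
      (g.Act (envOf g.e l k) a p → (true, .mem 0 1, [a, envOf g.e l i]) ∈ T)
  | (false, .eq i k, l) => (g.Act (envOf g.e l i) w q ∧ (false, .mem 0 1, [w, envOf g.e l k]) ∈ T) ∨
      (g.Act (envOf g.e l k) w q ∧ (false, .mem 0 1, [w, envOf g.e l i]) ∈ T)

def Resp (g : GD A) (s m r : Pos A) : Prop :=
  g.le r.1 s.1 ∧ (∀ t ∈ s.2.2, t ∈ r.2.2) ∧
    (∀ t, m.2.2 = [t] → t ∈ s.2.2 → Rule g s.1 m.1 r.1 r.2.1 r.2.2 t) ∧
    ∀ t, m.2.2 = [t, t] → g.Dense t.2.1 t.2.2 → g.Dn t.2.1 t.2.2 r.1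

structure Hom (g : GD A) (g' : GD B) (j : A → B) : Prop where
  inj : Function.Injective j
  e : g'.e = j g.e
  le : ∀ a b, g'.le (j a) (j b) ↔ g.le a b
  Act : ∀ a b c, g'.Act (j a) (j b) (j c) ↔ g.Act a b c
  Nm : ∀ a, g'.Nm (j a) ↔ g.Nm a
  Dn : ∀ φ l a, g'.Dn φ (l.map j) (j a) ↔ g.Dn φ l a
  Dense : ∀ φ l, g'.Dense φ (l.map j) ↔ g.Dense φ l

theorem St.map_inj {j : A → B} (h : Function.Injective j) : Function.Injective (St.map j) := by
  rintro ⟨b, φ, l⟩ ⟨b', φ', l'⟩ h1
  simp only [St.map, Prod.mk.injEq] at h1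
  rw [h1.1, h1.2.1, List.map_injective_iff.2 h h1.2.2]

variable {g : GD A} {g' : GD B} {j : A → B}

theorem Hom.rule (h : Hom g g' j) (p a q w : A) (T : List (St A)) (t : St A) :
    Rule g' (j p) (j a) (j q) (j w) (T.map (St.map j)) (t.map j) ↔ Rule g p a q w T t := by
  have hm : ∀ b φ (l : List A), (b, φ, l.map j) ∈ T.map (St.map j) ↔ (b, φ, l) ∈ T :=
    fun b φ l => List.mem_map_of_injective (a := (b, φ, l)) (St.map_inj h.inj)
  have hm1 : ∀ b φ a (l : List A), (b, φ, j a :: l.map j) ∈ T.map (St.map j) ↔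
      (b, φ, a :: l) ∈ T := fun b φ a l => hm b φ (a :: l)
  have hm2 : ∀ b φ a c, (b, φ, [j a, j c]) ∈ T.map (St.map j) ↔ (b, φ, [a, c]) ∈ T :=
    fun b φ a c => hm b φ [a, c]
  obtain ⟨b, φ, l⟩ := t
  cases b <;> cases φ <;>
    simp only [St.map, Rule, h.e, envOf_map, hm, hm1, hm2, h.Act, h.Nm]

theorem Hom.resp (h : Hom g g' j) (s m r : Pos A) :
    Resp g' (s.map j) (m.map j) (r.map j) ↔ Resp g s m r := by
  have hi := St.map_inj h.inj
  refine and_congr (h.le _ _) (and_congr ?_ (and_congr ?_ ?_))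
  · simp only [Pos.map, List.forall_mem_map, List.mem_map_of_injective hi]
  · constructor
    · intro h1 t h2 h3
      exact (h.rule _ _ _ _ _ _).1 (h1 (t.map j) (by simp [Pos.map, h2])
        (List.mem_map_of_mem h3))
    · intro h1 t h2 h3
      obtain ⟨t, h4, rfl⟩ := List.mem_map.1 h3
      exact (h.rule _ _ _ _ _ _).2 (h1 t (List.map_injective_iff.2 hi h2) h4)
  · constructor
    · intro h1 t h2 h3
      exact (h.Dn _ _ _).1 (h1 (t.map j) (by simp [Pos.map, h2]) ((h.Dense _ _).2 h3))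
    · intro h1 t h2 h3
      obtain ⟨t, _, rfl⟩ := List.mem_map.1 (show t ∈ (m.map j).2.2 from
        h2 ▸ List.mem_cons_self)
      exact (h.Dn _ _ _).2 (h1 t (List.map_injective_iff.2 hi h2) ((h.Dense _ _).1 h3))

/-- Absoluteness of winning positions for substructures closed under both strategies. -/
theorem Hom.win (h : Hom g g' j) (mv : Pos B → Pos B) (rk : Pos B → Ordinal.{u})
    (hmv : ∀ s, ¬ Win (Resp g') s → ∀ r, Resp g' s (mv s) r → ¬ Win (Resp g') r ∧ rk r < rk s)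
    (h1 : ∀ s : Pos A, ∃ m : Pos A, m.map j = mv (s.map j))
    (h2 : ∀ s m : Pos A, Win (Resp g') (s.map j) →
      ∃ r : Pos A, Resp g' (s.map j) (m.map j) (r.map j) ∧ Win (Resp g') (r.map j))
    (s : Pos A) : Win (Resp g') (s.map j) ↔ Win (Resp g) s := by
  constructor
  · intro hs
    refine ⟨fun t => Win (Resp g') (t.map j), hs, fun t ht m => ?_⟩
    obtain ⟨r, h3, h4⟩ := h2 t m ht
    exact ⟨r, (h.resp _ _ _).1 h3, h4⟩
  · intro hs
    by_contra hc
    generalize ha : rk (s.map j) = a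
    induction a using WellFoundedLT.induction generalizing s with
    | ind a ih =>
      obtain ⟨m, hm⟩ := h1 s
      obtain ⟨r, h3, h4⟩ := hs.step _ m
      obtain ⟨h5, h6⟩ := hmv _ hc (r.map j) (hm ▸ (h.resp _ _ _).2 h3)
      exact ih _ (ha ▸ h6) r h4 h5 rfl

end Pool.Agent.Work.MP_cbd9ca_lc
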