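import Pool.Agent.Work.MP_cbd9ca_lc.Defs
import Pool.Agent.Work.MP_cbd9ca_lc.Game

/-! The universe is a model of ZFC; elementary substructures; hulls and the Mostowski collapse. -/

namespace Pool.Agent.Work.MP_cbd9ca_lc
open Pool.Agent.Lib.ZFModel

universe u v

theorem isZFC_V : IsZFC (fun a b : ZFSet.{0} => a ∈ b) := by
  refine ⟨⟨fun a b h => ZFSet.ext h, fun a ⟨x, hx⟩ => ?_, fun a b => ⟨{a, b}, fun x => by simp⟩,
    fun a => ⟨ZFSet.sUnion a, fun x => by simp⟩, fun a => ⟨a.powerset, fun x => ?_⟩,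
    ⟨ZFSet.omega, ⟨∅, ZFSet.omega_zero, ZFSet.notMem_empty⟩, fun x hx =>
      ⟨_, ZFSet.omega_succ hx, fun z => by simp [or_comm]⟩⟩,
    fun φ v a => ⟨_, fun x => ZFSet.mem_sep⟩, fun φ v a h => ?_⟩, fun a h1 h2 => ?_⟩
  · obtain ⟨m, hm, h⟩ := ZFSet.mem_wf.has_min {y | y ∈ a} ⟨x, hx⟩
    exact ⟨m, hm, fun y hy hya => h y hya hy⟩
  · rw [ZFSet.mem_powerset]; rfl
  · choose f hf using fun x : a => h x.1 x.2
    refine ⟨ZFSet.range f, fun y => ZFSet.mem_range.trans ⟨?_, ?_⟩⟩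
    · rintro ⟨x, rfl⟩; exact ⟨x.1, x.2, (hf x).1⟩
    · rintro ⟨x, hx, h1⟩; exact ⟨⟨x, hx⟩, ((hf ⟨x, hx⟩).2 y h1).symm⟩
  · choose f hf using fun y : a => h1 y.1 y.2
    refine ⟨ZFSet.range f, fun y hy => ⟨f ⟨y, hy⟩, ⟨hf _, ZFSet.mem_range_self _⟩, ?_⟩⟩
    rintro z ⟨h3, h4⟩
    obtain ⟨⟨y', hy'⟩, rfl⟩ := ZFSet.mem_range.1 h4
    obtain rfl := h2 y y' _ hy hy' h3 (hf _)
    rfl

def fiff (φ ψ : Fml) : Fml := (Fml.imp φ ψ).and (.imp ψ φ)
def for' (φ ψ : Fml) : Fml := .imp φ.neg ψ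

section
variable {A : Type u} {E : A → A → Prop}

theorem sat_fiff (φ ψ : Fml) (v : ℕ → A) : Sat E (fiff φ ψ) v ↔ (Sat E φ v ↔ Sat E ψ v) := by
  rw [fiff, sat_and]; exact iff_iff_implies_and_implies.symm
theorem sat_for (φ ψ : Fml) (v : ℕ → A) : Sat E (for' φ ψ) v ↔ (Sat E φ v ∨ Sat E ψ v) :=
  or_iff_not_imp_left.symm
theorem cons_four (x : A) (v : ℕ → A) : cons x v 4 = v 3 := rfl

def sepA (φ : Fml) : Fml :=
  (Fml.all (fiff (.mem 0 1) ((Fml.mem 0 2).and (φ.rename (cons 0 fun n => n + 3))))).ex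

theorem sat_sepA (φ : Fml) (a : A) (v : ℕ → A) : Sat E (sepA φ) (cons a v) ↔
    ∃ b, ∀ x, E x b ↔ E x a ∧ Sat E φ (cons x v) := by
  simp only [sepA, sat_ex, Sat, sat_fiff, sat_and, sat_rename, comp_cons (cons _ (cons _ (cons a v)))]
  rfl

def replA (φ : Fml) : Fml :=
  .imp (.all (.imp (.mem 0 1) ((φ.rename (cons 0 (cons 1 fun n => n + 3))).and
      (.all (.imp (φ.rename (cons 0 (cons 2 fun n => n + 4))) (.eq 0 1)))).ex))
    (Fml.all (fiff (.mem 0 1) ((Fml.mem 0 3).and (φ.rename (cons 1 (cons 0 fun n => n + 4)))).ex)).ex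

theorem sat_replA (φ : Fml) (a : A) (v : ℕ → A) : Sat E (replA φ) (cons a v) ↔
    ((∀ x, E x a → ∃! y, Sat E φ (cons y (cons x v))) →
      ∃ b, ∀ y, E y b ↔ ∃ x, E x a ∧ Sat E φ (cons y (cons x v))) := by
  simp only [replA, sat_ex, Sat, sat_fiff, sat_and, sat_rename,
    comp_cons (cons _ (cons _ (cons a v))), comp_cons (cons _ (cons _ (cons _ (cons a v))))]
  rfl

end

theorem IsZFC.of_elem {A : Type u} {B : Type v} {E : A → A → Prop} {E' : B → B → Prop} (a0 : A)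
    (j : A → B) (h : ∀ φ v, Sat E φ v ↔ Sat E' φ fun i => j (v i)) (z : IsZFC E') : IsZFC E := by
  have k := fun φ (hφ : Sat E' φ fun _ => j a0) => (h φ fun _ => a0).2 hφ
  refine ⟨⟨?_, ?_, ?_, ?_, ?_, ?_, fun φ v a => ?_, fun φ v a => ?_⟩, ?_⟩
  · have := k (.all (.all (.imp (.all (fiff (.mem 0 2) (.mem 0 1))) (.eq 1 0))))
    simp only [Sat, sat_fiff] at this
    exact this z.zf.extensionality
  · have := k (.all (.imp (Fml.mem 0 1).ex
      ((Fml.mem 0 1).and (.all (.imp (.mem 0 1) (Fml.mem 0 2).neg))).ex))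
    simp only [Sat, sat_ex, sat_and, sat_neg] at this
    exact this z.zf.foundation
  · have := k (.all (.all (Fml.all (fiff (.mem 0 1) (for' (.eq 0 3) (.eq 0 2)))).ex))
    simp only [Sat, sat_ex, sat_fiff, sat_for] at this
    exact this z.zf.pairing
  · have := k (.all (Fml.all (fiff (.mem 0 1) ((Fml.mem 0 3).and (.mem 1 0)).ex)).ex)
    simp only [Sat, sat_ex, sat_fiff, sat_and] at this
    exact this z.zf.union
  · have := k (.all (Fml.all (fiff (.mem 0 1) (.all (.imp (.mem 0 1) (.mem 0 3))))).ex)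
    simp only [Sat, sat_ex, sat_fiff] at this
    exact this z.zf.powerset
  · have := k ((((Fml.mem 0 1).and (.all (Fml.mem 0 1).neg)).ex).and (.all (.imp (.mem 0 1)
      ((Fml.mem 0 2).and (.all (fiff (.mem 0 1) (for' (.mem 0 2) (.eq 0 2))))).ex))).ex
    simp only [Sat, sat_ex, sat_fiff, sat_and, sat_for, sat_neg] at this
    exact this z.zf.infinity
  · rw [← sat_sepA, h, comp_cons j, sat_sepA]
    exact z.zf.separation _ _ _
  · rw [← sat_replA, h, comp_cons j, sat_replA]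
    exact z.zf.replacement _ _ _
  · have := k (.all (.imp (.all (.imp (.mem 0 1) (Fml.mem 0 1).ex))
      (.imp (.all (.all (.all (.imp (.mem 2 3) (.imp (.mem 1 3) (.imp (.mem 0 2)
        (.imp (.mem 0 1) (.eq 2 1))))))))
      (Fml.all (.imp (.mem 0 2) (((Fml.mem 0 1).and (.mem 0 2)).and
        (.all (.imp ((Fml.mem 0 2).and (.mem 0 3)) (.eq 0 1)))).ex)).ex)))
    simp only [Sat, sat_ex, sat_and] at this
    exact this z.choice

theorem exists_hull_pos {X : Type u} {K : Type} [Countable K] (e : X)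
    (Rel : K → List X → List X → Pos X → Pos X → Pos X → Prop) :
    ∃ N : Set X, N.Countable ∧ e ∈ N ∧ ∀ k l₀ l (s m : Pos X), (∀ x ∈ l₀, x ∈ N) →
      (∀ x ∈ l, x ∈ N) → (∀ x ∈ s.elems, x ∈ N) → (∀ x ∈ m.elems, x ∈ N) →
      (∃ r, Rel k l₀ l s m r) → ∃ r : Pos X, (∀ x ∈ r.elems, x ∈ N) ∧ Rel k l₀ l s m r := by
  classical
  have : Nonempty (Pos X) := ⟨(e, e, [])⟩
  let f : K → List X → List X → Pos X → Pos X → Pos X := fun k l₀ l s m =>
    Classical.epsilon (Rel k l₀ l s m)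
  obtain ⟨N, h1, _, h2⟩ := exists_hull (X := X)
    (K := Option (K × List ℕ × List ℕ × Pos ℕ × Pos ℕ × ℕ)) (fun _ => True) fun k L x =>
      match k with
      | none => x = e
      | some (k, l₀, l, s, m, n) => x = envOf e (f k (l₀.map (envOf e L)) (l.map (envOf e L))
          (s.map (envOf e L)) (m.map (envOf e L))).elems n
  refine ⟨N, h1, ?_, fun k l₀ l s m h3 h4 h5 h6 h7 => ⟨f k l₀ l s m, fun x hx => ?_,
    Classical.epsilon_spec h7⟩⟩
  · obtain ⟨x, hx, rfl⟩ := h2 none [] (by simp) ⟨e, trivial, rfl⟩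
    exact hx
  · have hL := exists_envOf_eq e (l₀ ++ l ++ s.elems ++ m.elems)
    obtain ⟨l₀', e1⟩ := exists_list_map _ l₀ fun b hb => hL b (by simp [hb])
    obtain ⟨l', e2⟩ := exists_list_map _ l fun b hb => hL b (by simp [hb])
    obtain ⟨s', e3⟩ := Pos.exists_map _ s fun b hb => hL b (by simp [hb])
    obtain ⟨m', e4⟩ := Pos.exists_map _ m fun b hb => hL b (by simp [hb])
    obtain ⟨n, hn⟩ := exists_envOf_eq e _ x hx
    obtain ⟨y, hy, h8⟩ := h2 (some (k, l₀', l', s', m', n)) (l₀ ++ l ++ s.elems ++ m.elems)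
      (by
        intro x hx
        simp only [List.mem_append] at hx
        rcases hx with ((hx | hx) | hx) | hx
        exacts [h3 x hx, h4 x hx, h5 x hx, h6 x hx]) ⟨_, trivial, rfl⟩
    simp only [e1, e2, e3, e4, hn] at h8
    exact h8 ▸ hy

instance small_col (N : Set ZFSet.{0}) (x : ZFSet.{0}) :
    Small.{0} {y : ZFSet.{0} // y ∈ N ∧ y ∈ x} :=
  small_of_injective_of_exists (fun a : x => a.1) Subtype.val_injective
    fun ⟨y, h⟩ => ⟨⟨y, h.2⟩, rfl⟩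

/-- The Mostowski collapse. -/
noncomputable def col (N : Set ZFSet.{0}) (x : ZFSet.{0}) : ZFSet.{0} :=
  ZFSet.range fun y : {y : ZFSet.{0} // y ∈ N ∧ y ∈ x} => col N y.1
termination_by x.rank
decreasing_by exact ZFSet.rank_lt_of_mem y.2.2

theorem mem_col {N : Set ZFSet.{0}} {x z : ZFSet.{0}} :
    z ∈ col N x ↔ ∃ y, y ∈ N ∧ y ∈ x ∧ col N y = z := by
  rw [col, ZFSet.mem_range]
  exact ⟨fun ⟨y, h⟩ => ⟨y.1, y.2.1, y.2.2, h⟩, fun ⟨y, h1, h2, h⟩ => ⟨⟨y, h1, h2⟩, h⟩⟩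

theorem exists_collapse (N : Set ZFSet.{0}) (hN : N.Countable)
    (hext : ∀ a ∈ N, ∀ b ∈ N, (∀ c ∈ N, c ∈ a ↔ c ∈ b) → a = b) :
    ∃ M : ZFSet.{0}, M.IsTransitive ∧ (M : Set ZFSet).Countable ∧
      ∃ j : ↥(M : Set ZFSet.{0}) → ZFSet.{0}, Function.Injective j ∧ (∀ x, x ∈ N ↔ ∃ a, j a = x) ∧
        ∀ a b, j a ∈ j b ↔ a.1 ∈ b.1 := by
  have := hN.to_subtype
  have hinj : ∀ a, a ∈ N → ∀ b ∈ N, col N a = col N b → a = b := by
    intro a
    induction a using ZFSet.inductionOn with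
    | h a ih =>
      intro ha b hb h
      refine hext a ha b hb fun c hc => ⟨fun h1 => ?_, fun h1 => ?_⟩
      · obtain ⟨y, h2, h3, h4⟩ := mem_col.1 (h ▸ mem_col.2 ⟨c, hc, h1, rfl⟩ : col N c ∈ col N b)
        rwa [ih c h1 hc y h2 h4.symm]
      · obtain ⟨y, h2, h3, h4⟩ := mem_col.1 (h ▸ mem_col.2 ⟨c, hc, h1, rfl⟩ : col N c ∈ col N a)
        rwa [← ih y h3 h2 c hc h4]
  let M : ZFSet.{0} := ZFSet.range fun y : N => col N y.1
  have hM : ∀ a : (M : Set ZFSet), ∃ y : N, col N y.1 = a.1 := fun a => ZFSet.mem_range.1 a.2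
  choose j hj using hM
  refine ⟨M, fun a ha z hz => ?_, ?_, fun a => (j a).1, fun a b h => ?_,
    fun x => ⟨fun hx => ?_, ?_⟩, fun a b => ?_⟩
  · obtain ⟨y, rfl⟩ := ZFSet.mem_range.1 ha
    obtain ⟨c, h1, _, rfl⟩ := mem_col.1 hz
    exact ZFSet.mem_range.2 ⟨⟨c, h1⟩, rfl⟩
  · rw [ZFSet.coe_range]; exact Set.countable_range _
  · exact Subtype.ext (by rw [← hj, ← hj]; exact congrArg _ h)
  · exact ⟨⟨col N x, ZFSet.mem_range.2 ⟨⟨x, hx⟩, rfl⟩⟩, hinj _ (j _).2 _ hx (hj _)⟩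
  · rintro ⟨a, rfl⟩; exact (j a).2
  · rw [← hj, ← hj, mem_col]
    exact ⟨fun h => ⟨_, (j a).2, h, rfl⟩, fun ⟨y, h1, h2, h3⟩ =>
      show (j a).1 ∈ (j b).1 from hinj _ h1 _ (j a).2 h3 ▸ h2⟩

end Pool.Agent.Work.MP_cbd9ca_lc
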