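import Pool.Agent.Work.MP_cbd9ca_lc.Sound
import Pool.Agent.Work.MP_cbd9ca_lc.Elem

/-! A countable transitive model of ZFC over which every class forcing has an amenable forcing
relation. -/

namespace Pool.Agent.Work.MP_cbd9ca_lc
open Pool.Agent.Lib.ZFModel

abbrev EV : ZFSet.{0} → ZFSet.{0} → Prop := fun a b => a ∈ b

def leV (φ : Fml) (l : List ZFSet.{0}) (a b : ZFSet.{0}) : Prop :=
  Sat EV φ (cons a (cons b (envOf ∅ l)))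

/-- The game data in the universe. -/
def gV (φ₀ : Fml) (l₀ : List ZFSet.{0}) : GD ZFSet.{0} where
  e := ∅
  le := leV φ₀ l₀
  Act τ ρ q := ∃ r, ZFSet.pair ρ r ∈ τ ∧ leV φ₀ l₀ q r
  Nm := IsName {p | leV φ₀ l₀ p p}
  Dn φ l a := Sat EV φ (cons a (envOf ∅ l))
  Dense φ l := ∀ p, leV φ₀ l₀ p p → ∃ q, leV φ₀ l₀ q p ∧ Sat EV φ (cons q (envOf ∅ l))

instance : Nonempty (Pos ZFSet.{0}) := ⟨(∅, ∅, [])⟩

noncomputable def mvV (φ₀ : Fml) (l₀ : List ZFSet.{0}) : Pos ZFSet.{0} → Pos ZFSet.{0} :=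
  (exists_strategy (Resp (gV φ₀ l₀))).choose

def RV (φ₀ : Fml) (l₀ : List ZFSet.{0}) (φ : Fml) (n : ℕ) (z : ZFSet.{0}) : Prop :=
  ∃ p σ, z = ZFSet.pair p (tup σ) ∧ leV φ₀ l₀ p p ∧ σ.length = n ∧
    (∀ τ ∈ σ, (gV φ₀ l₀).Nm τ) ∧ ¬ Win (Resp (gV φ₀ l₀)) (p, p, [(false, φ, σ)])

/-- Indices of the closure conditions. -/
inductive Kd : Type
  | tv (φ : Fml) | upr | unpr | act (φ₀ : Fml) | dn1 (φ₀ φ : Fml) | dn2 (φ₀ φ : Fml)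
  | nm (φ₀ : Fml) | mv (φ₀ : Fml) | resp (φ₀ : Fml) | sep (φ₀ φ : Fml) (n : ℕ)
  deriving Countable

def Rel (k : Kd) (l₀ l : List ZFSet.{0}) (s m r : Pos ZFSet.{0}) : Prop := match k with
  | .tv φ => ¬ Sat EV φ (cons r.1 (envOf ∅ l))
  | .upr => r.1 = {s.1, m.1}
  | .unpr => s.1 = ZFSet.pair r.1 r.2.1
  | .act φ₀ => ZFSet.pair s.2.1 r.1 ∈ s.1 ∧ leV φ₀ l₀ m.1 r.1
  | .dn1 φ₀ φ => leV φ₀ l₀ r.1 s.1 ∧ Sat EV φ (cons r.1 (envOf ∅ l))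
  | .dn2 φ₀ φ => leV φ₀ l₀ r.1 r.1 ∧ ¬ ∃ q, leV φ₀ l₀ q r.1 ∧ Sat EV φ (cons q (envOf ∅ l))
  | .nm φ₀ => r.1 ∈ s.1 ∧ ¬ ∃ τ p, r.1 = ZFSet.pair τ p ∧ leV φ₀ l₀ p p ∧ (gV φ₀ l₀).Nm τ
  | .mv φ₀ => r = mvV φ₀ l₀ s
  | .resp φ₀ => Resp (gV φ₀ l₀) s m r ∧ Win (Resp (gV φ₀ l₀)) r
  | .sep φ₀ φ n => r.1 = ZFSet.sep (RV φ₀ l₀ φ n) s.1

theorem isName_iff {P : Set ZFSet.{0}} {σ : ZFSet.{0}} :
    IsName P σ ↔ ∀ z ∈ σ, ∃ τ p, z = ZFSet.pair τ p ∧ p ∈ P ∧ IsName P τ := by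
  constructor
  · rintro ⟨_, h1, h2⟩ z hz
    obtain ⟨τ, p, rfl, hp⟩ := h1 z hz
    exact ⟨τ, p, rfl, hp, h2 τ p hz⟩
  · refine fun h => ⟨_, fun z hz => ?_, fun τ p hz => ?_⟩
    · obtain ⟨τ, p, h1, h2, _⟩ := h z hz
      exact ⟨τ, p, h1, h2⟩
    · obtain ⟨τ', p', h1, _, h3⟩ := h _ hz
      exact (ZFSet.pair_inj.1 h1).1 ▸ h3

section
variable {M : ZFSet.{0}} (hM : M.IsTransitive) (h0 : ∅ ∈ M) (j : ↥(M : Set ZFSet.{0}) → ZFSet.{0})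
  (hinj : Function.Injective j) (hmem : ∀ a b, j a ∈ j b ↔ a.1 ∈ b.1) (he : j ⟨∅, h0⟩ = ∅)
  (hcl : ∀ k (l₀ l : List ↥(M : Set ZFSet.{0})) (s m : Pos ↥(M : Set ZFSet.{0})),
    (∃ r, Rel k (l₀.map j) (l.map j) (s.map j) (m.map j) r) →
      ∃ r : Pos ↥(M : Set ZFSet.{0}), Rel k (l₀.map j) (l.map j) (s.map j) (m.map j) (r.map j))

include he in
theorem env_map (l : List ↥(M : Set ZFSet.{0})) :
    envOf ∅ (l.map j) = fun i => j (envOf ⟨∅, h0⟩ l i) := by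
  funext i; rw [← envOf_map j, he]

include hinj hmem he hcl in
theorem elem (φ : Fml) : ∀ v, Sat (Mem M) φ v ↔ Sat EV φ fun i => j (v i) := by
  induction φ with
  | mem i k => exact fun v => (hmem _ _).symm
  | eq i k => exact fun v => hinj.eq_iff.symm
  | fal => exact fun v => Iff.rfl
  | imp φ ψ ih1 ih2 => intro v; simp only [Sat, ih1, ih2]
  | all φ ih =>
    intro v
    refine ⟨fun h x => by_contra fun hx => ?_, fun h x => ?_⟩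
    · obtain ⟨l, _, hl⟩ := exists_envOf (⟨∅, h0⟩ : ↥(M : Set ZFSet.{0})) φ.bd v
      have key : ∀ y, Sat EV φ (cons y fun i => j (v i)) ↔ Sat EV φ (cons y (envOf ∅ (l.map j))) :=
        fun y => sat_congr φ _ _ (cons_agree (R := Eq) rfl fun i hi => by
          rw [env_map h0 j he, ← hl i (by omega)])
      obtain ⟨r, hr⟩ := hcl (.tv φ) [] l (v 0, v 0, []) (v 0, v 0, [])
        ⟨(x, x, []), fun h => hx ((key x).2 h)⟩
      refine hr ((key _).1 ?_)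
      have := (ih _).1 (h r.1)
      rwa [comp_cons j] at this
    · rw [ih, comp_cons j]; exact h _

include hM hinj hmem hcl in
theorem exists_pair' (a b : ↥(M : Set ZFSet.{0})) :
    ∃ c : ↥(M : Set ZFSet.{0}), j c = ZFSet.pair (j a) (j b) ∧ c.1 = ZFSet.pair a.1 b.1 := by
  have key : ∀ a b : ↥(M : Set ZFSet.{0}),
      ∃ c : ↥(M : Set ZFSet.{0}), j c = {j a, j b} ∧ c.1 = {a.1, b.1} := by
    intro a b
    obtain ⟨r, hr⟩ := hcl .upr [] [] (a, a, []) (b, b, []) ⟨(_, ∅, []), rfl⟩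
    have hr' : j r.1 = {j a, j b} := hr
    refine ⟨r.1, hr', ZFSet.ext fun z => ⟨fun hz => ?_, fun hz => ?_⟩⟩
    · have := (hmem ⟨z, hM.mem_trans hz r.1.2⟩ r.1).2 hz
      rw [hr', ZFSet.mem_pair, hinj.eq_iff, hinj.eq_iff] at this
      rcases this with h | h <;> simp [← h]
    · rcases ZFSet.mem_pair.1 hz with rfl | rfl <;> rw [← hmem, hr'] <;> simp
  obtain ⟨c1, h1, h1'⟩ := key a a
  obtain ⟨c2, h2, h2'⟩ := key a b
  obtain ⟨c3, h3, h3'⟩ := key c1 c2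
  exact ⟨c3, by rw [h3, h1, h2, ZFSet.pair_eq_singleton]; rfl,
    by rw [h3', h1', h2', ZFSet.pair_eq_singleton]; rfl⟩

include hM hinj hmem hcl in
theorem unpair' {z : ↥(M : Set ZFSet.{0})} {a b : ZFSet} (h : j z = ZFSet.pair a b) :
    ∃ a' b' : ↥(M : Set ZFSet.{0}), j a' = a ∧ j b' = b ∧ z.1 = ZFSet.pair a'.1 b'.1 := by
  obtain ⟨r, hr⟩ := hcl .unpr [] [] (z, z, []) (z, z, []) ⟨(a, b, []), h⟩
  have hr' : j z = ZFSet.pair (j r.1) (j r.2.1) := hr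
  obtain ⟨c, h1, h2⟩ := exists_pair' hM j hinj hmem hcl r.1 r.2.1
  obtain ⟨h3, h4⟩ := ZFSet.pair_inj.1 (h.symm.trans hr')
  exact ⟨r.1, r.2.1, h3.symm, h4.symm, by rw [← h2, hinj (hr'.trans h1.symm)]⟩

include hM hinj hmem hcl in
theorem pair_mem' (a b c : ↥(M : Set ZFSet.{0})) :
    ZFSet.pair (j a) (j b) ∈ j c ↔ ZFSet.pair a.1 b.1 ∈ c.1 := by
  obtain ⟨d, h1, h2⟩ := exists_pair' hM j hinj hmem hcl a b
  rw [← h1, ← h2, hmem]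

include hM hinj hmem he hcl in
theorem exists_tup (σ : List ↥(M : Set ZFSet.{0})) :
    ∃ c : ↥(M : Set ZFSet.{0}), j c = tup (σ.map j) ∧ c.1 = tup (σ.map Subtype.val) := by
  induction σ with
  | nil => exact ⟨⟨∅, h0⟩, he, rfl⟩
  | cons a σ ih =>
    obtain ⟨c, h1, h2⟩ := ih
    obtain ⟨d, h3, h4⟩ := exists_pair' hM j hinj hmem hcl a c
    exact ⟨d, by rw [h3, h1]; rfl, by rw [h4, h2]; rfl⟩

include hM hinj hmem hcl in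
theorem untup (σ : List ZFSet) : ∀ z, j z = tup σ → ∀ b ∈ σ, ∃ a, j a = b := by
  induction σ with
  | nil => simp
  | cons c σ ih =>
    intro z hz b hb
    obtain ⟨a', b', h1, h2, _⟩ := unpair' hM j hinj hmem hcl hz
    rcases List.mem_cons.1 hb with rfl | hb
    · exact ⟨a', h1⟩
    · exact ih b' h2 b hb

include hM h0 hinj hmem he hcl in
theorem amenable (hc : (M : Set ZFSet).Countable) (Q : ClassForcing M) : Amenable Q := by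
  obtain ⟨φ₀, v₀, h1⟩ := Q.definable_le
  obtain ⟨l₀, _, hl₀⟩ := exists_envOf (⟨∅, h0⟩ : ↥(M : Set ZFSet.{0})) φ₀.bd v₀
  have hel := elem h0 j hinj hmem he hcl
  have hle : ∀ a b, leV φ₀ (l₀.map j) (j a) (j b) ↔ Q.le a.1 b.1 := by
    intro a b
    rw [leV, env_map h0 j he, ← comp_cons j, ← comp_cons j, ← hel, h1,
      sat_congr φ₀ _ (cons a (cons b v₀)) (cons_agree (R := Eq) rfl (cons_agree (R := Eq) rfl
        fun i hi => hl₀ i (by omega)))]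
    exact ⟨fun h => ⟨a.2, b.2, h⟩, fun ⟨_, _, h⟩ => h⟩
  have hP : ∀ p, p ∈ Q.P ↔ Q.le p p := fun p => ⟨Q.refl p, fun h => (Q.mem_of_le _ _ h).1⟩
  have hDn : ∀ φ (l : List ↥(M : Set ZFSet.{0})) a, Sat EV φ (cons (j a) (envOf ∅ (l.map j))) ↔
      Sat (Mem M) φ (cons a (envOf ⟨∅, h0⟩ l)) := by
    intro φ l a
    rw [env_map h0 j he, ← comp_cons j, ← hel]
  have hNm : ∀ o : Ordinal, ∀ a : ↥(M : Set ZFSet.{0}), a.1.rank = o →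
      ((gV φ₀ (l₀.map j)).Nm (j a) ↔ IsName Q.P a.1) := by
    intro o
    induction o using WellFoundedLT.induction with
    | ind o ih =>
      rintro a rfl
      refine isName_iff.trans (Iff.trans ⟨fun h z hz => ?_, fun h z hz => ?_⟩ isName_iff.symm)
      · obtain ⟨τ, p, h2, h3, h4⟩ := h _ ((hmem ⟨z, hM.mem_trans hz a.2⟩ a).2 hz)
        obtain ⟨τ, p, rfl, rfl, h5⟩ := unpair' hM j hinj hmem hcl h2
        exact ⟨_, _, h5, (hP _).2 ((hle _ _).1 h3),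
          (ih _ (rank_lt_of_pair_mem (show _ ∈ a.1 from (show z = _ from h5) ▸ hz)) τ rfl).1 h4⟩
      · by_contra h2
        obtain ⟨r, h3, h4⟩ := hcl (.nm φ₀) l₀ [] (a, a, []) (a, a, []) ⟨(z, z, []), hz, h2⟩
        have h5 : r.1.1 ∈ a.1 := (hmem _ _).1 h3
        obtain ⟨τ, p, h6, h7, h8⟩ := h _ h5
        obtain ⟨hτ, hp⟩ := mem_of_pair_mem hM a.2 (h6 ▸ h5)
        obtain ⟨c, h9, h10⟩ := exists_pair' hM j hinj hmem hcl ⟨τ, hτ⟩ ⟨p, hp⟩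
        refine h4 ⟨j ⟨τ, hτ⟩, j ⟨p, hp⟩, ?_, (hle _ _).2 ((hP _).1 h7),
          (ih _ (rank_lt_of_pair_mem (h6 ▸ h5)) ⟨τ, hτ⟩ rfl).2 h8⟩
        rw [← h9]
        exact congrArg j (Subtype.ext (h6.trans h10.symm))
  have hom : Hom (gdM Q h0) (gV φ₀ (l₀.map j)) j := by
    refine ⟨hinj, he.symm, hle, fun a b c => ⟨fun ⟨r, h2⟩ => ?_, fun ⟨r, h2, h3⟩ => ?_⟩,
      fun a => hNm _ a rfl, hDn, fun φ l => ⟨fun h p hp => ?_, fun h p hp => by_contra fun hq => ?_⟩⟩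
    · obtain ⟨r, h3, h4⟩ := hcl (.act φ₀) l₀ [] (a, b, []) (c, c, []) ⟨(r, r, []), h2⟩
      exact ⟨r.1.1, (pair_mem' hM j hinj hmem hcl _ _ _).1 h3, (hle _ _).1 h4⟩
    · have hr := (mem_of_pair_mem hM a.2 h2).2
      exact ⟨j ⟨r, hr⟩, (pair_mem' hM j hinj hmem hcl _ _ _).2 h2, (hle _ _).2 h3⟩
    · obtain ⟨q, hq⟩ := h _ ((hle p p).2 hp)
      obtain ⟨r, h3, h4⟩ := hcl (.dn1 φ₀ φ) l₀ l (p, p, []) (p, p, []) ⟨(q, q, []), hq⟩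
      exact ⟨r.1, (hle _ _).1 h3, (hDn _ _ _).1 h4⟩
    · obtain ⟨r, h3, h4⟩ := hcl (.dn2 φ₀ φ) l₀ l (⟨∅, h0⟩, ⟨∅, h0⟩, []) (⟨∅, h0⟩, ⟨∅, h0⟩, [])
        ⟨(p, p, []), hp, hq⟩
      obtain ⟨q, h5, h6⟩ := h r.1 ((hle _ _).1 h3)
      exact h4 ⟨j q, (hle _ _).2 h5, (hDn _ _ _).2 h6⟩
  obtain ⟨rk, hrk⟩ := (exists_strategy (Resp (gV φ₀ (l₀.map j)))).choose_spec
  have hwin := hom.win _ rk hrk (fun s => hcl (.mv φ₀) l₀ [] s s ⟨_, rfl⟩)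
    fun s m h => hcl (.resp φ₀) l₀ [] s m (h.step _ _)
  intro φ n hφ x hx
  obtain ⟨r, hr⟩ := hcl (.sep φ₀ φ n) l₀ [] (⟨x, hx⟩, ⟨x, hx⟩, []) (⟨x, hx⟩, ⟨x, hx⟩, [])
    ⟨(_, ∅, []), rfl⟩
  have hr' : j r.1 = ZFSet.sep (RV φ₀ (l₀.map j) φ n) (j ⟨x, hx⟩) := hr
  have key : ∀ z : ↥(M : Set ZFSet.{0}), RV φ₀ (l₀.map j) φ n (j z) ↔ z.1 ∈ forcingRel Q φ n := by
    intro z
    constructor
    · rintro ⟨p, σ, h2, h3, rfl, h4, h5⟩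
      obtain ⟨p, c, rfl, h6, h7⟩ := unpair' hM j hinj hmem hcl h2
      obtain ⟨σ, rfl⟩ := exists_list_map j σ (untup hM j hinj hmem hcl σ c h6)
      obtain ⟨d, h8, h9⟩ := exists_tup hM h0 j hinj hmem he hcl σ
      have h10 : ∀ τ ∈ σ, IsName Q.P τ.1 := fun τ hτ =>
        (hom.Nm τ).1 (h4 _ (List.mem_map_of_mem hτ))
      refine ⟨p.1, σ.map Subtype.val, by rw [h7, hinj (h6.trans h8.symm), h9],
        (hP _).2 ((hle _ _).1 h3), by simp, fun τ hτ => ?_, ?_⟩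
      · obtain ⟨τ, h11, rfl⟩ := List.mem_map.1 hτ
        exact ⟨τ.2, h10 τ h11⟩
      · exact (forces_iff_not_win h0 hM hc (by simpa using hφ) h10 p).2
          fun h => h5 ((hwin (p, p, [(false, φ, σ)])).2 h)
    · rintro ⟨p, σ, h2, h3, rfl, h4, h5⟩
      obtain ⟨σ, rfl⟩ := exists_list_map (Subtype.val : ↥(M : Set ZFSet.{0}) → ZFSet) σ
        fun b hb => ⟨⟨b, (h4 b hb).1⟩, rfl⟩
      obtain ⟨d, h8, h9⟩ := exists_tup hM h0 j hinj hmem he hcl σ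
      obtain ⟨c, h6, h7⟩ := exists_pair' hM j hinj hmem hcl ⟨p, mem_M Q h3⟩ d
      have h10 : ∀ τ ∈ σ, IsName Q.P τ.1 := fun τ hτ => (h4 _ (List.mem_map_of_mem hτ)).2
      refine ⟨j ⟨p, mem_M Q h3⟩, σ.map j, ?_, (hle _ _).2 ((hP _).1 h3), by simp, fun τ hτ => ?_,
        fun h => ?_⟩
      · rw [← h8, ← h6]
        exact congrArg j (Subtype.ext (by rw [h2, h7, h9]))
      · obtain ⟨τ, h11, rfl⟩ := List.mem_map.1 hτ
        exact (hom.Nm τ).2 (h10 τ h11)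
      · exact (forces_iff_not_win h0 hM hc (by simpa using hφ) h10 ⟨p, mem_M Q h3⟩).1 h5
          ((hwin (_, _, [(false, φ, σ)])).1 h)
  refine ⟨r.1.1, r.1.2, fun z => ⟨fun hz => ?_, fun ⟨h2, h3⟩ => ?_⟩⟩
  · have := (hmem ⟨z, hM.mem_trans hz r.1.2⟩ r.1).2 hz
    rw [hr', ZFSet.mem_sep, hmem, key] at this
    exact this
  · refine (hmem ⟨z, hM.mem_trans h2 hx⟩ r.1).1 ?_
    rw [hr', ZFSet.mem_sep, hmem, key]
    exact ⟨h2, h3⟩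

end

theorem exists_model : ∃ M : ZFSet.{0}, IsCTM M ∧ ∀ Q : ClassForcing M, Amenable Q := by
  obtain ⟨N, hN, hN0, hcl⟩ := exists_hull_pos (∅ : ZFSet.{0}) Rel
  have hs : ∀ x ∈ Pos.elems ((∅, ∅, []) : Pos ZFSet.{0}), x ∈ N := by simp [Pos.elems, hN0]
  obtain ⟨M, hM, hc, j, hinj, hr, hmem⟩ := exists_collapse N hN fun a ha b hb h => by
    refine ZFSet.ext fun z => by_contra fun hz => ?_
    obtain ⟨r, h1, h2⟩ := hcl (.tv (fiff (.mem 0 1) (.mem 0 2))) [] [a, b] _ _ (by simp)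
      (by simp [ha, hb]) hs hs ⟨(z, z, []), fun h => hz ((sat_fiff _ _ _).1 h)⟩
    exact h2 ((sat_fiff _ _ _).2 (h r.1 (h1 _ List.mem_cons_self)))
  obtain ⟨e, he⟩ := (hr ∅).1 hN0
  have he' : e.1 = ∅ := (ZFSet.eq_empty _).2 fun y hy => ZFSet.notMem_empty _
    (he ▸ (hmem ⟨y, hM.mem_trans hy e.2⟩ e).2 hy)
  have h0 : ∅ ∈ M := he' ▸ e.2
  have he2 : j ⟨∅, h0⟩ = ∅ := (congrArg j (Subtype.ext he'.symm)).trans he
  have hl : ∀ l : List ↥(M : Set ZFSet.{0}), ∀ x ∈ l.map j, x ∈ N := fun l x hx => by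
    obtain ⟨a, _, h⟩ := List.mem_map.1 hx
    exact (hr x).2 ⟨a, h⟩
  have hcl' : ∀ k (l₀ l : List ↥(M : Set ZFSet.{0})) (s m : Pos ↥(M : Set ZFSet.{0})),
      (∃ r, Rel k (l₀.map j) (l.map j) (s.map j) (m.map j) r) →
      ∃ r : Pos ↥(M : Set ZFSet.{0}), Rel k (l₀.map j) (l.map j) (s.map j) (m.map j) (r.map j) := by
    intro k l₀ l s m h
    obtain ⟨r, h1, h2⟩ := hcl k _ _ _ _ (hl l₀) (hl l)
      (fun x hx => (hr x).2 (s.mem_elems_map j x hx))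
      (fun x hx => (hr x).2 (m.mem_elems_map j x hx)) h
    obtain ⟨r, rfl⟩ := Pos.exists_map j r fun b hb => (hr b).1 (h1 b hb)
    exact ⟨r, h2⟩
  exact ⟨M, ⟨hM, hc, IsZFC.of_elem ⟨∅, h0⟩ j (elem h0 j hinj hmem he2 hcl') isZFC_V⟩,
    amenable hM h0 j hinj hmem he2 hcl' hc⟩

end Pool.Agent.Work.MP_cbd9ca_lc
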