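import Pool.Agent.Work.MP_cbd9ca_lc.Defs
import Pool.Agent.Work.MP_cbd9ca_lc.Game
import Pool.Agent.Lib.ZFModel.Dfn
import Mathlib.Logic.Equiv.List
import Mathlib.Data.Nat.Pairing

/-! Over a countable transitive set, `p` fails to force `φ` exactly when the closed player wins. -/

namespace Pool.Agent.Work.MP_cbd9ca_lc
open Pool.Agent.Lib.ZFModel

theorem mem_val {G : Set ZFSet.{0}} {σ z : ZFSet.{0}} :
    z ∈ val G σ ↔ ∃ τ p, p ∈ G ∧ ZFSet.pair τ p ∈ σ ∧ z = val G τ := by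
  rw [val, ZFSet.mem_range]
  exact ⟨fun ⟨⟨τ, p, h1, h2⟩, h⟩ => ⟨τ, p, h1, h2, h.symm⟩,
    fun ⟨τ, p, h1, h2, h⟩ => ⟨⟨τ, p, h1, h2⟩, h.symm⟩⟩

theorem mem_of_pair_mem {M τ p σ : ZFSet.{0}} (hM : M.IsTransitive) (hσ : σ ∈ M)
    (h : ZFSet.pair τ p ∈ σ) : τ ∈ M ∧ p ∈ M := by
  have h1 : ({τ, p} : ZFSet) ∈ M := hM.mem_trans (by simp [ZFSet.pair]) (hM.mem_trans h hσ)
  exact ⟨hM.mem_trans (by simp) h1, hM.mem_trans (by simp) h1⟩

theorem isName_empty (P : Set ZFSet.{0}) : IsName P ∅ :=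
  .mk _ (fun z hz => absurd hz (ZFSet.notMem_empty z))
    fun _ _ h => absurd h (ZFSet.notMem_empty _)

theorem envOf_getElem {A : Type*} (e : A) (l : List A) (i : ℕ) (h : i < l.length) :
    envOf e l i = l[i] := by
  induction l generalizing i with
  | nil => simp at h
  | cons a l ih => cases i with
    | zero => rfl
    | succ i => exact ih i (by simpa using h)

theorem Dfn.sat1 {A : Type 1} {E : A → A → Prop} (φ : Fml) (c : ℕ → A) :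
    Dfn E (fun v => Sat E φ (cons (v 0) c)) :=
  ⟨φ.rename (cons (vi 0) ci), c, fun v => by
    rw [sat_rename, comp_cons (weave v c)]; simp only [weave_vi, weave_ci]⟩

theorem Dfn.sat2 {A : Type 1} {E : A → A → Prop} [Nonempty A] (φ : Fml) (c : ℕ → A)
    (s t : (ℕ → A) → A) [Trm s] [Trm t] :
    Dfn E (fun v => Sat E φ (cons (s v) (cons (t v) c))) := by
  have : Dfn E (fun v => Sat E φ (cons (tail v 0) (cons (v 0) c))) :=
    ⟨φ.rename (cons (vi 1) (cons (vi 0) ci)), c, fun v => by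
      rw [sat_rename, comp_cons (weave v c), comp_cons (weave v c)]; simp only [weave_vi, weave_ci]⟩
  exact (inferInstance : Dfn E fun v => ∃ x, x = s v ∧ ∃ y, y = t v ∧
    Sat E φ (cons x (cons y c))).congr fun v => by simp

variable {M : ZFSet.{0}} (Q : ClassForcing M) (h0 : ∅ ∈ M)

/-- The game data of a notion of class forcing. -/
def gdM : GD (M : Set ZFSet) where
  e := ⟨∅, h0⟩
  le a b := Q.le a.1 b.1
  Act τ ρ q := ∃ r, ZFSet.pair ρ.1 r ∈ τ.1 ∧ Q.le q.1 r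
  Nm a := IsName Q.P a.1
  Dn φ l a := Sat (Mem M) φ (cons a (envOf ⟨∅, h0⟩ l))
  Dense φ l := ∀ p : (M : Set ZFSet), Q.le p.1 p.1 →
    ∃ q : (M : Set ZFSet), Q.le q.1 p.1 ∧ Sat (Mem M) φ (cons q (envOf ⟨∅, h0⟩ l))

/-- Truth in the generic extension, with names as parameters. -/
def SatN (G : Set ZFSet.{0}) : Fml → (ℕ → (M : Set ZFSet)) → Prop
  | .mem i j, v => val G (v i).1 ∈ val G (v j).1
  | .eq i j, v => val G (v i).1 = val G (v j).1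
  | .fal, _ => False
  | .imp φ ψ, v => SatN G φ v → SatN G ψ v
  | .all φ, v => ∀ σ : (M : Set ZFSet), IsName Q.P σ.1 → SatN G φ (cons σ v)

theorem satN_iff (G : Set ZFSet.{0}) (φ : Fml) : ∀ n (v : ℕ → (M : Set ZFSet))
    (w : ℕ → Extension Q G), FreeBelow n φ → (∀ i < n, (w i).1 = val G (v i).1) →
    (Sat (Mem (Extension Q G)) φ w ↔ SatN Q G φ v) := by
  induction φ with
  | mem i j => intro n v w h h'; simp only [Sat, SatN, Mem, h' i h.1, h' j h.2]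
  | eq i j => intro n v w h h'; simp only [Sat, SatN, Subtype.ext_iff, h' i h.1, h' j h.2]
  | fal => intro n v w _ _; rfl
  | imp φ ψ ih1 ih2 => intro n v w h h'; simp only [Sat, SatN, ih1 n v w h.1 h', ih2 n v w h.2 h']
  | all φ ih =>
    intro n v w h h'
    have key : ∀ (σ : (M : Set ZFSet)) (x : Extension Q G), x.1 = val G σ.1 →
        (Sat (Mem (Extension Q G)) φ (cons x w) ↔ SatN Q G φ (cons σ v)) := fun σ x hx =>
      ih (n + 1) _ _ h (cons_agree (R := fun (a : Extension Q G) (b : (M : Set ZFSet)) =>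
        a.1 = val G b.1) hx h')
    constructor
    · intro h1 σ hσ
      exact (key σ ⟨_, σ.1, σ.2, hσ, rfl⟩ rfl).1 (h1 _)
    · rintro h1 ⟨x, σ, h2, h3, h4⟩
      exact (key ⟨σ, h2⟩ _ h4).2 (h1 _ h3)

theorem forces_iff {φ : Fml} {σ : List (M : Set ZFSet)} (hφ : FreeBelow σ.length φ)
    (hσ : ∀ τ ∈ σ, IsName Q.P τ.1) (p : ZFSet) : Forces Q φ p (σ.map Subtype.val) ↔
      ∀ G, IsGeneric Q G → p ∈ G → SatN Q G φ (envOf ⟨∅, h0⟩ σ) := by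
  refine forall₃_congr fun G _ _ => ⟨fun h => ?_, fun h w hw => ?_⟩
  · have hn : ∀ i, IsName Q.P (envOf (⟨∅, h0⟩ : (M : Set ZFSet)) σ i).1 := fun i => by
      have h1 : (⟨∅, h0⟩ : (M : Set ZFSet)) ∈ {a : (M : Set ZFSet) | IsName Q.P a.1} :=
        isName_empty Q.P
      have h2 := envOf_mem h1 σ hσ i
      exact h2
    refine (satN_iff Q G φ _ _ (fun i => ⟨_, _, Subtype.property _, hn i, rfl⟩) hφ
      fun _ _ => rfl).1 (h _ fun i hi => ?_)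
    simp only [List.getElem_map]
    rw [envOf_getElem _ _ _ (by simpa using hi)]
  · refine (satN_iff Q G φ _ _ w hφ fun i hi => ?_).2 h
    rw [hw i (by simpa using hi), envOf_getElem _ _ _ hi, List.getElem_map]

/-- Truth of a signed formula. -/
def Tr (G : Set ZFSet.{0}) (t : St (M : Set ZFSet)) : Prop :=
  SatN Q G t.2.1 (envOf ⟨∅, h0⟩ t.2.2) ↔ t.1 = true

theorem mem_M {p : ZFSet} (h : p ∈ Q.P) : p ∈ M := by
  obtain ⟨φ, v, h1⟩ := Q.definable_P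
  exact ((h1 p).1 h).1

variable {Q} (hM : M.IsTransitive)
include hM

theorem win_of_generic {G : Set ZFSet} (hG : IsGeneric Q G) (s : Pos (M : Set ZFSet))
    (h1 : s.1.1 ∈ G) (h2 : ∀ t ∈ s.2.2, Tr Q h0 G t) : Win (Resp (gdM Q h0)) s := by
  classical
  obtain ⟨hP, hup, hdir, hgen⟩ := hG
  refine ⟨fun s => s.1.1 ∈ G ∧ ∀ t ∈ s.2.2, Tr Q h0 G t, ⟨h1, h2⟩, ?_⟩
  clear h1 h2 s
  rintro ⟨p, w, T⟩ ⟨h1, h2⟩ ⟨a, a', ms⟩
  have hpp : Q.le p.1 p.1 := Q.refl _ (hP h1)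
  have act : ∀ {τ ρ : (M : Set ZFSet)}, (gdM Q h0).Act τ ρ p → val G ρ.1 ∈ val G τ.1 :=
    fun ⟨r, h3, h4⟩ => mem_val.2 ⟨_, r, hup _ _ h1 h4, h3, rfl⟩
  have wit : ∀ {τ : (M : Set ZFSet)} {z}, z ∈ val G τ.1 → ∃ q ρ : (M : Set ZFSet), q.1 ∈ G ∧
      Q.le q.1 p.1 ∧ (gdM Q h0).Act τ ρ q ∧ z = val G ρ.1 := by
    intro τ z hz
    obtain ⟨ρ, r, h3, h4, h5⟩ := mem_val.1 hz
    obtain ⟨q, h6, h7, h8⟩ := hdir _ h1 _ h3
    exact ⟨⟨q, mem_M Q (hP h6)⟩, ⟨ρ, (mem_of_pair_mem hM τ.2 h4).1⟩, h6, h7, ⟨r, h4, h8⟩, h5⟩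
  have rule : ∀ t, Tr Q h0 G t → ∃ (q w : (M : Set ZFSet)) (U : List (St (M : Set ZFSet))),
      q.1 ∈ G ∧ Q.le q.1 p.1 ∧ (∀ u ∈ U, Tr Q h0 G u) ∧
        ∀ T, (∀ u ∈ U, u ∈ T) → Rule (gdM Q h0) p a q w T t := by
    rintro ⟨b, φ, l⟩ ht
    let C : List (St (M : Set ZFSet)) → List (St (M : Set ZFSet)) := fun L =>
      L.filter fun u => decide (Tr Q h0 G u)
    have hC : ∀ L, ∀ u ∈ C L, Tr Q h0 G u := fun L u hu => by simpa [C] using (List.mem_filter.1 hu).2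
    have hC' : ∀ L, ∀ u ∈ L, Tr Q h0 G u → u ∈ C L := fun L u hu h => by simp [C, hu, h]
    cases b <;> cases φ <;> simp only [Tr, SatN, iff_true, Bool.false_eq_true, iff_false] at ht
    case false.mem i k =>
      refine ⟨p, p, C [(false, .eq 0 1, [envOf ⟨∅, h0⟩ l i, a])], h1, hpp, hC _,
        fun T hT h => hT _ (hC' _ _ List.mem_cons_self ?_)⟩
      exact iff_of_false (fun h3 => ht (h3 ▸ act h)) (by simp)
    case false.eq i k =>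
      have : (∃ z ∈ val G (envOf ⟨∅, h0⟩ l i).1, z ∉ val G (envOf ⟨∅, h0⟩ l k).1) ∨
          ∃ z ∈ val G (envOf ⟨∅, h0⟩ l k).1, z ∉ val G (envOf ⟨∅, h0⟩ l i).1 := by
        by_contra hc
        push Not at hc
        exact ht (ZFSet.ext fun z => ⟨hc.1 z, hc.2 z⟩)
      rcases this with ⟨z, h3, h4⟩ | ⟨z, h3, h4⟩
      · obtain ⟨q, ρ, h5, h6, h7, rfl⟩ := wit h3
        exact ⟨q, ρ, [(false, .mem 0 1, [ρ, envOf ⟨∅, h0⟩ l k])], h5, h6,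
          fun u hu => List.mem_singleton.1 hu ▸ iff_of_false h4 (by simp),
          fun T hT => Or.inl ⟨h7, hT _ List.mem_cons_self⟩⟩
      · obtain ⟨q, ρ, h5, h6, h7, rfl⟩ := wit h3
        exact ⟨q, ρ, [(false, .mem 0 1, [ρ, envOf ⟨∅, h0⟩ l i])], h5, h6,
          fun u hu => List.mem_singleton.1 hu ▸ iff_of_false h4 (by simp),
          fun T hT => Or.inr ⟨h7, hT _ List.mem_cons_self⟩⟩
    case false.fal => exact ⟨p, p, [], h1, hpp, by simp, fun _ _ => trivial⟩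
    case false.imp φ ψ =>
      obtain ⟨h3, h4⟩ := Classical.not_imp.1 ht
      exact ⟨p, p, C [(true, φ, l), (false, ψ, l)], h1, hpp, hC _, fun T hT =>
        ⟨hT _ (hC' _ _ (by simp) (iff_of_true h3 rfl)),
          hT _ (hC' _ _ (by simp) (iff_of_false h4 (by simp)))⟩⟩
    case false.all φ =>
      push Not at ht
      obtain ⟨σ, h3, h4⟩ := ht
      exact ⟨p, σ, [(false, φ, σ :: l)], h1, hpp,
        fun u hu => List.mem_singleton.1 hu ▸ iff_of_false h4 (by simp),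
        fun T hT => ⟨h3, hT _ List.mem_cons_self⟩⟩
    case true.mem i k =>
      obtain ⟨q, ρ, h5, h6, h7, h8⟩ := wit ht
      exact ⟨q, ρ, [(true, .eq 0 1, [envOf ⟨∅, h0⟩ l i, ρ])], h5, h6,
        fun u hu => List.mem_singleton.1 hu ▸ iff_of_true h8 rfl,
        fun T hT => ⟨h7, hT _ List.mem_cons_self⟩⟩
    case true.eq i k =>
      refine ⟨p, p, C [(true, .mem 0 1, [a, envOf ⟨∅, h0⟩ l k]),
        (true, .mem 0 1, [a, envOf ⟨∅, h0⟩ l i])], h1, hpp, hC _, fun T hT =>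
        ⟨fun h => hT _ (hC' _ _ List.mem_cons_self (iff_of_true ?_ rfl)),
          fun h => hT _ (hC' _ _ (List.mem_cons_of_mem _ List.mem_cons_self) (iff_of_true ?_ rfl))⟩⟩
      · show val G a.1 ∈ val G (envOf ⟨∅, h0⟩ l k).1
        rw [← ht]; exact act h
      · show val G a.1 ∈ val G (envOf ⟨∅, h0⟩ l i).1
        rw [ht]; exact act h
    case true.imp φ ψ =>
      refine ⟨p, p, C [(false, φ, l), (true, ψ, l)], h1, hpp, hC _, fun T hT => ?_⟩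
      by_cases h3 : SatN Q G φ (envOf ⟨∅, h0⟩ l)
      · exact Or.inr (hT _ (hC' _ _ (by simp) (iff_of_true (ht h3) rfl)))
      · exact Or.inl (hT _ (hC' _ _ (by simp) (iff_of_false h3 (by simp))))
    case true.all φ =>
      exact ⟨p, p, C [(true, φ, a :: l)], h1, hpp, hC _, fun T hT h =>
        hT _ (hC' _ _ List.mem_cons_self (iff_of_true (ht a h) rfl))⟩
  by_cases h3 : ∃ t, ms = [t] ∧ t ∈ T
  · obtain ⟨t, rfl, h3⟩ := h3
    obtain ⟨q, w', U, h4, h5, h6, h7⟩ := rule t (h2 t h3)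
    refine ⟨(q, w', U ++ T), ⟨h5, fun u hu => List.mem_append_right _ hu, fun u hu _ => ?_,
      fun u hu => by simp at hu⟩, h4, fun u hu => (List.mem_append.1 hu).elim (h6 u) (h2 u)⟩
    obtain rfl : t = u := by simpa using hu
    exact h7 _ fun u hu => List.mem_append_left _ hu
  by_cases h4 : ∃ t, ms = [t, t] ∧ (gdM Q h0).Dense t.2.1 t.2.2
  · obtain ⟨t, rfl, h4⟩ := h4
    obtain ⟨φ0, v0, hle⟩ := Q.definable_le
    have hle' : ∀ a b : (M : Set ZFSet), Q.le a.1 b.1 ↔ Sat (Mem M) φ0 (cons a (cons b v0)) :=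
      fun a b => (hle _ _).trans ⟨fun ⟨_, _, h⟩ => h, fun h => ⟨a.2, b.2, h⟩⟩
    have : Nonempty (M : Set ZFSet) := ⟨p⟩
    have i1 : ∀ (s t : (ℕ → (M : Set ZFSet)) → (M : Set ZFSet)) [Trm s] [Trm t],
        Dfn (Mem M) (fun v => Q.le (s v).1 (t v).1) :=
      fun s t _ _ => (Dfn.sat2 φ0 v0 s t).congr fun v => hle' _ _
    have i2 := Dfn.sat1 (E := Mem M) t.2.1 (envOf ⟨∅, h0⟩ t.2.2)
    obtain ⟨ψ, c, hψ⟩ := Dfn.two (E := Mem M) fun q _ : (M : Set ZFSet) => Q.le q.1 q.1 ∧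
      ((Sat (Mem M) t.2.1 (cons q (envOf ⟨∅, h0⟩ t.2.2)) ∧ Q.le q.1 p.1) ∨
        ¬ ∃ r : (M : Set ZFSet), Q.le r.1 q.1 ∧ Q.le r.1 p.1)
    obtain ⟨q, h5, hq, h6⟩ := hgen {x | ∃ hx : x ∈ M, Sat (Mem M) ψ (cons ⟨x, hx⟩ (cons p c))}
      ⟨ψ, cons p c, fun _ => Iff.rfl⟩ (fun x ⟨hx, h⟩ => (Q.mem_of_le _ _ ((hψ _ _).2 h).1).1)
      (fun r hr => by
        by_cases h5 : ∃ u : (M : Set ZFSet), Q.le u.1 r ∧ Q.le u.1 p.1
        · obtain ⟨u, h5, h6⟩ := h5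
          obtain ⟨q, h7, h8⟩ := h4 u (Q.refl _ (Q.mem_of_le _ _ h5).1)
          exact ⟨q.1, ⟨q.2, (hψ q p).1 ⟨Q.refl _ (Q.mem_of_le _ _ h7).1,
            Or.inl ⟨h8, Q.trans _ _ _ h7 h6⟩⟩⟩, Q.trans _ _ _ h7 h5⟩
        · exact ⟨r, ⟨mem_M Q hr, (hψ ⟨r, mem_M Q hr⟩ p).1 ⟨Q.refl _ hr, Or.inr h5⟩⟩, Q.refl _ hr⟩)
    rcases ((hψ _ _).2 h6).2 with h7 | h7
    · refine ⟨(⟨q, hq⟩, p, T), ⟨h7.2, fun u hu => hu, fun u hu => by simp at hu, fun u hu _ => ?_⟩,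
        h5, h2⟩
      obtain rfl : t = u := by simpa using hu
      exact h7.1
    · obtain ⟨r, h8, h9, h10⟩ := hdir _ h5 _ h1
      exact absurd ⟨⟨r, mem_M Q (hP h8)⟩, h9, h10⟩ h7
  · exact ⟨(p, p, T), ⟨hpp, fun u hu => hu, fun u hu h => absurd ⟨u, hu, h⟩ h3,
      fun u hu h => absurd ⟨u, hu, h⟩ h4⟩, h1, h2⟩

theorem generic_of_win (hc : (M : Set ZFSet).Countable) (s : Pos (M : Set ZFSet))
    (hs : Win (Resp (gdM Q h0)) s) :
    ∃ G, IsGeneric Q G ∧ s.1.1 ∈ G ∧ ∀ t ∈ s.2.2, Tr Q h0 G t := by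
  have := hc.to_subtype
  have : Nonempty (Pos (M : Set ZFSet)) := ⟨s⟩
  obtain ⟨f, hf⟩ := exists_surjective_nat (Pos (M : Set ZFSet))
  choose nx hnx1 hnx2 using fun (t : {t // Win (Resp (gdM Q h0)) t}) m => t.2.step _ m
  let S : ℕ → {t // Win (Resp (gdM Q h0)) t} := fun n =>
    Nat.rec ⟨s, hs⟩ (fun n t => ⟨nx t (f n.unpair.1), hnx2 _ _⟩) n
  have hS : ∀ n, Resp (gdM Q h0) (S n).1 (f n.unpair.1) (S (n + 1)).1 := fun n => hnx1 _ _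
  have hle : ∀ m n, m < n → Q.le (S n).1.1.1 (S m).1.1.1 := by
    intro m n h
    induction h with
    | refl => exact (hS m).1
    | step _ ih => exact Q.trans _ _ _ (hS _).1 ih
  have hT : ∀ m n, m ≤ n → ∀ t ∈ (S m).1.2.2, t ∈ (S n).1.2.2 := by
    intro m n h
    induction h with
    | refl => exact fun _ h => h
    | step _ ih => exact fun t ht => (hS _).2.1 t (ih t ht)
  have hmv : ∀ m k, ∃ n, k < n ∧ Resp (gdM Q h0) (S n).1 m (S (n + 1)).1 := by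
    intro m k
    obtain ⟨i, rfl⟩ := hf m
    refine ⟨Nat.pair i (k + 1), Nat.right_le_pair _ _, ?_⟩
    have := hS (Nat.pair i (k + 1))
    rwa [Nat.unpair_pair] at this
  let G : Set ZFSet := {r | ∃ n, Q.le (S n).1.1.1 r}
  let Th : St (M : Set ZFSet) → Prop := fun t => ∃ n, t ∈ (S n).1.2.2
  have rule : ∀ t, Th t → ∀ a k, ∃ n, k < n ∧ Rule (gdM Q h0) (S n).1.1 a (S (n + 1)).1.1
      (S (n + 1)).1.2.1 (S (n + 1)).1.2.2 t := by
    rintro t ⟨m, hm⟩ a k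
    obtain ⟨n, h1, h2⟩ := hmv (a, a, [t]) (max m k)
    exact ⟨n, by omega, h2.2.2.1 t rfl (hT m n (by omega) t hm)⟩
  have act : ∀ {τ ρ : (M : Set ZFSet)} {n}, (gdM Q h0).Act τ ρ (S n).1.1 →
      ∃ r ∈ G, ZFSet.pair ρ.1 r ∈ τ.1 := fun {_ _ n} ⟨r, h3, h4⟩ => ⟨r, ⟨n, h4⟩, h3⟩
  have act' : ∀ {τ ρ : (M : Set ZFSet)} {r}, r ∈ G → ZFSet.pair ρ.1 r ∈ τ.1 →
      ∃ k, ∀ n, k < n → (gdM Q h0).Act τ ρ (S n).1.1 :=
    fun ⟨k, hk⟩ h => ⟨k, fun n hn => ⟨_, h, Q.trans _ _ _ (hle k n hn) hk⟩⟩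
  -- membership statements reduce to equalities with children
  have hmem : ∀ (l : List (M : Set ZFSet)) i k,
      (∀ (ρ : (M : Set ZFSet)) r, ZFSet.pair ρ.1 r ∈ (envOf ⟨∅, h0⟩ l k).1 → ∀ b,
        Th (b, .eq 0 1, [envOf ⟨∅, h0⟩ l i, ρ]) →
          Tr Q h0 G (b, .eq 0 1, [envOf ⟨∅, h0⟩ l i, ρ])) →
      ∀ b, Th (b, .mem i k, l) → Tr Q h0 G (b, .mem i k, l) := by
    intro l i k ih b ht
    cases b
    · refine iff_of_false (fun h => ?_) (by simp)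
      obtain ⟨ρ, r, h1, h2, h3⟩ := mem_val.1 h
      have hρ := (mem_of_pair_mem hM (envOf ⟨∅, h0⟩ l k).2 h2).1
      obtain ⟨m, hm⟩ := act' (ρ := ⟨ρ, hρ⟩) h1 h2
      obtain ⟨n, h4, h5⟩ := rule _ ht ⟨ρ, hρ⟩ m
      simpa using (ih ⟨ρ, hρ⟩ r h2 false ⟨n + 1, h5 (hm n h4)⟩).1 h3
    · obtain ⟨n, _, h1, h2⟩ := rule _ ht s.1 0
      obtain ⟨r, h3, h4⟩ := act (n := n + 1) h1
      exact iff_of_true (mem_val.2 ⟨_, r, h3, h4, (ih _ r h4 true ⟨n + 1, h2⟩).2 rfl⟩) rfl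
  have heq : ∀ (l : List (M : Set ZFSet)) i k,
      (∀ (ρ τ : (M : Set ZFSet)) r,
        (ZFSet.pair ρ.1 r ∈ (envOf ⟨∅, h0⟩ l i).1 ∧ τ = envOf ⟨∅, h0⟩ l k) ∨
        (ZFSet.pair ρ.1 r ∈ (envOf ⟨∅, h0⟩ l k).1 ∧ τ = envOf ⟨∅, h0⟩ l i) → ∀ b,
        Th (b, .mem 0 1, [ρ, τ]) → Tr Q h0 G (b, .mem 0 1, [ρ, τ])) →
      ∀ b, Th (b, .eq i k, l) → Tr Q h0 G (b, .eq i k, l) := by
    intro l i k ih b ht
    cases b
    · refine iff_of_false (fun h => ?_) (by simp)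
      have h' : val G (envOf ⟨∅, h0⟩ l i).1 = val G (envOf ⟨∅, h0⟩ l k).1 := h
      obtain ⟨n, _, ⟨h1, h2⟩ | ⟨h1, h2⟩⟩ := rule _ ht s.1 0
      · obtain ⟨r, h3, h4⟩ := act (n := n + 1) h1
        simpa using (ih _ _ r (Or.inl ⟨h4, rfl⟩) false ⟨n + 1, h2⟩).1
          (show _ ∈ _ from h' ▸ mem_val.2 ⟨_, r, h3, h4, rfl⟩)
      · obtain ⟨r, h3, h4⟩ := act (n := n + 1) h1
        simpa using (ih _ _ r (Or.inr ⟨h4, rfl⟩) false ⟨n + 1, h2⟩).1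
          (show _ ∈ _ from h' ▸ mem_val.2 ⟨_, r, h3, h4, rfl⟩)
    · refine iff_of_true (ZFSet.ext fun z => ⟨fun h => ?_, fun h => ?_⟩) rfl
      · obtain ⟨ρ, r, h1, h2, rfl⟩ := mem_val.1 h
        have hρ := (mem_of_pair_mem hM (envOf ⟨∅, h0⟩ l i).2 h2).1
        obtain ⟨m, hm⟩ := act' (ρ := ⟨ρ, hρ⟩) h1 h2
        obtain ⟨n, h4, h5⟩ := rule _ ht ⟨ρ, hρ⟩ m
        exact (ih ⟨ρ, hρ⟩ _ r (Or.inl ⟨h2, rfl⟩) true ⟨n + 1, h5.1 (hm n h4)⟩).2 rfl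
      · obtain ⟨ρ, r, h1, h2, rfl⟩ := mem_val.1 h
        have hρ := (mem_of_pair_mem hM (envOf ⟨∅, h0⟩ l k).2 h2).1
        obtain ⟨m, hm⟩ := act' (ρ := ⟨ρ, hρ⟩) h1 h2
        obtain ⟨n, h4, h5⟩ := rule _ ht ⟨ρ, hρ⟩ m
        exact (ih ⟨ρ, hρ⟩ _ r (Or.inr ⟨h2, rfl⟩) true ⟨n + 1, h5.2 (hm n h4)⟩).2 rfl
  have hatom : ∀ o : Ordinal, ∀ σ τ : (M : Set ZFSet), max σ.1.rank τ.1.rank = o →
      ∀ b, Th (b, .eq 0 1, [σ, τ]) → Tr Q h0 G (b, .eq 0 1, [σ, τ]) := by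
    intro o
    induction o using WellFoundedLT.induction with
    | ind o ih =>
      rintro σ τ rfl
      refine heq _ _ _ fun ρ τ' r h => hmem _ _ _ fun ρ' r' h' => ih _ ?_ _ _ rfl
      have h1 := rank_lt_of_pair_mem h'
      rcases h with ⟨h, rfl⟩ | ⟨h, rfl⟩
      · exact max_lt_max (rank_lt_of_pair_mem h) h1
      · rw [max_comm]; exact max_lt_max h1 (rank_lt_of_pair_mem h)
  have hall : ∀ φ l b, Th (b, φ, l) → Tr Q h0 G (b, φ, l) := by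
    intro φ
    induction φ with
    | mem i k => exact fun l => hmem l i k fun _ _ _ => hatom _ _ _ rfl
    | eq i k => exact fun l => heq l i k fun _ _ _ _ => hmem _ _ _ fun _ _ _ => hatom _ _ _ rfl
    | fal =>
      intro l b ht
      cases b
      · exact iff_of_false id (by simp)
      · obtain ⟨n, _, h⟩ := rule _ ht s.1 0
        exact h.elim
    | imp φ ψ ih1 ih2 =>
      intro l b ht
      obtain ⟨n, _, h⟩ := rule _ ht s.1 0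
      cases b
      · refine iff_of_false (fun h1 => ?_) (by simp)
        simpa using (ih2 l _ ⟨n + 1, h.2⟩).1 (h1 ((ih1 l _ ⟨n + 1, h.1⟩).2 rfl))
      · refine iff_of_true (fun h1 => ?_) rfl
        rcases h with h | h
        · simpa using (ih1 l _ ⟨n + 1, h⟩).1 h1
        · exact (ih2 l _ ⟨n + 1, h⟩).2 rfl
    | all φ ih =>
      intro l b ht
      cases b
      · obtain ⟨n, _, h1, h2⟩ := rule _ ht s.1 0
        refine iff_of_false (fun h3 => ?_) (by simp)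
        simpa using (ih _ _ ⟨n + 1, h2⟩).1 (h3 _ h1)
      · refine iff_of_true (fun σ hσ => ?_) rfl
        obtain ⟨n, _, h⟩ := rule _ ht σ 0
        exact (ih _ _ ⟨n + 1, h hσ⟩).2 rfl
  refine ⟨G, ⟨fun r ⟨n, h⟩ => (Q.mem_of_le _ _ h).2, fun p q ⟨n, h⟩ h' => ⟨n, Q.trans _ _ _ h h'⟩,
    fun p ⟨m, hm⟩ q ⟨n, hn⟩ => ⟨_, ⟨max m n + 2, hle (max m n + 1) (max m n + 2) (by omega)⟩,
      Q.trans _ _ _ (hle m (max m n + 1) (by omega)) hm,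
      Q.trans _ _ _ (hle n (max m n + 1) (by omega)) hn⟩, ?_⟩,
    ⟨1, hle 0 1 (by omega)⟩, fun t ht => hall _ _ _ ⟨0, ht⟩⟩
  rintro D ⟨φ, v, hD⟩ _ hd
  obtain ⟨l, _, hl⟩ := exists_envOf (⟨∅, h0⟩ : (M : Set ZFSet)) φ.bd v
  have key : ∀ q : (M : Set ZFSet), q.1 ∈ D ↔ Sat (Mem M) φ (cons q (envOf ⟨∅, h0⟩ l)) := by
    intro q
    rw [hD, sat_congr φ (cons q (envOf ⟨∅, h0⟩ l)) (cons q v)
      (cons_agree (R := Eq) rfl fun i hi => hl i (by omega))]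
    exact ⟨fun ⟨_, h⟩ => h, fun h => ⟨q.2, h⟩⟩
  obtain ⟨n, _, h⟩ := hmv (s.1, s.1, [(true, φ, l), (true, φ, l)]) 0
  refine ⟨_, ⟨n + 2, hle (n + 1) (n + 2) (by omega)⟩, (key _).2 (h.2.2.2 _ rfl fun p hp => ?_)⟩
  obtain ⟨q, h1, h2⟩ := hd p.1 (Q.mem_of_le _ _ hp).1
  exact ⟨⟨q, ((hD q).1 h1).1⟩, h2, (key _).1 h1⟩

theorem forces_iff_not_win (hc : (M : Set ZFSet).Countable) {φ : Fml} {σ : List (M : Set ZFSet)}
    (hφ : FreeBelow σ.length φ) (hσ : ∀ τ ∈ σ, IsName Q.P τ.1) (p : (M : Set ZFSet)) :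
    Forces Q φ p.1 (σ.map Subtype.val) ↔ ¬ Win (Resp (gdM Q h0)) (p, p, [(false, φ, σ)]) := by
  rw [forces_iff Q h0 hφ hσ]
  constructor
  · intro h hw
    obtain ⟨G, h1, h2, h3⟩ := generic_of_win h0 hM hc _ hw
    simpa using (h3 _ List.mem_cons_self).1 (h G h1 h2)
  · intro h G h1 h2
    by_contra h3
    exact h (win_of_generic h0 hM h1 _ h2 fun t ht =>
      List.mem_singleton.1 ht ▸ iff_of_false h3 (by simp))

end Pool.Agent.Work.MP_cbd9ca_lc
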